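import Pool.Agent.H424R2.SG.Stub.ColA

namespace Pool.Agent.H424R2.SG

open Pool.Agent.NPC Pool.Agent.H424R2.PPAD

theorem valB_bl {n u : ℕ} (h : u < 2 ^ n) : valB (bl n u) = u := by
  sorry

theorem bl_valB (l : List Bool) : bl l.length (valB l) = l := by
  sorry

theorem graphOK (I : Circ × Circ) (hI : EOL.Valid I) : GraphOK (2 ^ eolN I) (sN I) (pN I) := by
  sorry

theorem colI_sol (I : Circ × Circ) (hI : EOL.Valid I) (x y x' y' : ℕ)
    (h' : (x' = x + 1 ∧ y' = y) ∨ (x' = x ∧ y' = y + 1))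
    (ht : ¬ noTri (colI I x y) (colI I x' y') (colI I (x + 1) (y + 1))) :
    EOL.IsSol I (ansI I x) := by
  sorry

end Pool.Agent.H424R2.SG
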