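import Pool.Agent.H424R2.SG.Game

namespace Pool.Agent.H424R2.SG

open Pool.Agent.NPC Matrix

variable (P : Par)

theorem gameMat_valid (G : List Gate) {r : ℕ} (hr : 2 ≤ r) : (SymNE r).Valid (gameMat P G) := by
  sorry

end Pool.Agent.H424R2.SG
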