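import Pool.Agent.H424R2.SG.Game

namespace Pool.Agent.H424R2.SG

open Pool.Agent.NPC Matrix

variable (P : Par)

/-- A symmetric equilibrium in terms of the masses of the strategies. -/
theorem pay_of_sol (G : List Gate) (hG : (G.map fun g => g.1).Nodup) {r : ℕ} {x : List ℚ}
    (hx : (SymNE r).IsSol (gameMat P G) x) :
    (∀ y, 0 ≤ mass P G x y) ∧ ((strats P G).map (mass P G x)).sum = 1 ∧
    ∃ κ : ℚ, ∀ y ∈ strats P G, pay P G (mass P G x) y ≤ κ ∧
      (0 < mass P G x y → pay P G (mass P G x) y = κ) := by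
  sorry

end Pool.Agent.H424R2.SG
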