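import Pool.Agent.H424R2.SG.Game

namespace Pool.Agent.H424R2.SG

open Pool.Agent.NPC Matrix

variable (P : Par)

/-- The equilibrium conditions in the form used for the analysis. -/
theorem equil_of_pay (G : List Gate) (hG : (G.map fun g => g.1).Nodup)
    (hin : ∀ g ∈ G, FIn (fun n => ∃ g' ∈ G, g'.1 = n ∧ g'.2.1 < g.2.1) g.2.2)
    (gi go : Fin 2 → GI G)
    (hgi : ∀ e, (gi e).1.1 = P.inn e) (hgo : ∀ e, (go e).1.1 = P.out e)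
    (hne : P.inn 0 ≠ P.inn 1 ∧ P.out 0 ≠ P.out 1 ∧ ∀ e e', P.inn e ≠ P.out e')
    (hgi0 : ∀ e, (gi e).1.2.2 = ([], 0))
    (hex : ∀ e, ex P (go e).1 = 2 * P.h + 2) (hF : 2 * P.Nb ≤ P.F)
    (X : St → ℚ) (hX : ∀ y, 0 ≤ X y) (hX1 : ((strats P G).map X).sum = 1) (κ : ℚ)
    (hκ : ∀ y ∈ strats P G, pay P G X y ≤ κ ∧ (0 < X y → pay P G X y = κ)) :
    Equil (ι := GI G) (fun j i => (coef j.1.2.2 i.1.1 : ℚ))
      (fun j => (j.1.2.2.2 : ℚ)) (fun j => 1 / 2 ^ (ex P j.1)) gi go (2 ^ P.h) (1 / 2 ^ P.F)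
      (2 ^ P.Dx) P.Nb κ (X (0, 0, 0, g0)) (fun j => X (1, 0, 0, j.1)) (fun j => X (2, 0, 0, j.1))
      (fun e j => X (3, e, j, g0)) (fun e j => X (4, e, j, g0)) := by
  sorry

end Pool.Agent.H424R2.SG
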