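import Pool.Agent.H424R2.SG.Game

namespace Pool.Agent.H424R2.SG

open Pool.Agent.NPC Matrix

theorem gsz_bound (G : List Gate) :
    (G.map fun g => (g.2.2.1.map fun t => |(t.1 : ℚ)|).sum + |(g.2.2.2 : ℚ)| + 1).sum + 1 ≤
      2 ^ gsz G := by
  sorry

theorem netOK_of (inn out : ℕ → Name) (G : List Gate) (m S : ℕ)
    (hG : (G.map fun g => g.1).Nodup)
    (hin : ∀ g ∈ G, FIn (fun n => ∃ g' ∈ G, g'.1 = n ∧ g'.2.1 < g.2.1) g.2.2)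
    (gi go : Fin 2 → GI G)
    (hgi : ∀ e, (gi e).1.1 = inn e) (hgo : ∀ e, (go e).1.1 = out e)
    (hne : inn 0 ≠ inn 1 ∧ out 0 ≠ out 1 ∧ ∀ e e', inn e ≠ out e')
    (hgi0 : ∀ e, (gi e).1.2.2 = ([], 0))
    (hS : ∀ e, (go e).1.2.1 = S)
    (hcap : ∀ (v : Name → ℚ) (κ : ℚ), 0 ≤ κ → (∀ g ∈ G, g.1 ≠ inn 0 → g.1 ≠ inn 1 →
      v g.1 = max 0 (ev v g.2.2 - κ)) → ∀ e < 2, v (out e) ≤ 2 ^ m - 2)
    (hm : 1 ≤ m) :
    NetOK (ι := GI G) (fun j i => (coef j.1.2.2 i.1.1 : ℚ))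
      (fun j => (j.1.2.2.2 : ℚ)) (fun j => 1 / 2 ^ (ex (parOf inn out G m S) j.1))
      (fun j => 2 ^ (m + gsz G + (parOf inn out G m S).s * j.1.2.1)) (fun j => j.1.2.1) gi go
      (2 ^ m - 2) (2 ^ (parOf inn out G m S).h) (1 / 2 ^ (parOf inn out G m S).F)
      (2 ^ (parOf inn out G m S).Dx) (parOf inn out G m S).Nb := by
  sorry

end Pool.Agent.H424R2.SG
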