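import Pool.Agent.H424R2.SG.Lp

namespace Pool.Agent.H424R2.SG

open Finset

variable {ι : Type} [Fintype ι] [DecidableEq ι]
variable {c : ι → ι → ℚ} {d θ V : ι → ℚ} {st : ι → ℕ} {inn out : Fin 2 → ι}
  {M u th D : ℚ} {Nb : ℕ} {κ x0 : ℚ} {P W : ι → ℚ} {bm tm : Fin 2 → ℕ → ℚ}

/-- In equilibrium the gates are evaluated exactly, and the values of the input gates are close
to the values of the output gates. -/
theorem NetOK.main (h : NetOK c d θ V st inn out M u th D Nb)
    (E : Equil c d θ inn out u th D Nb κ x0 P W bm tm) :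
    (∀ j, (∀ e, j ≠ inn e) → P j / θ j = max 0 (∑ i, c j i * (P i / θ i) + d j)) ∧
    ∀ e, |P (inn e) / θ (inn e) - P (out e) / θ (out e)| ≤ 1 / 4 := by
  sorry

end Pool.Agent.H424R2.SG
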