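import Pool.Agent.H424R2.SG.Game
import Pool.Agent.H424R2.SG.Stub.GameB
import Pool.Agent.H424R2.SG.Stub.GameC
import Pool.Agent.H424R2.SG.Stub.GameD
import Pool.Agent.H424R2.SG.Stub.LpPf

namespace Pool.Agent.H424R2.SG

open Pool.Agent.NPC Matrix

/-- The game of a net: in a symmetric equilibrium the gates (other than the input gates) are
evaluated exactly, and the values of the input gates are close to those of the output gates. -/
theorem game_spec (inn out : ℕ → Name) (G : List Gate) (m S : ℕ)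
    (hG : (G.map fun g => g.1).Nodup)
    (hin : ∀ g ∈ G, FIn (fun n => ∃ g' ∈ G, g'.1 = n ∧ g'.2.1 < g.2.1) g.2.2)
    (hgi : ∀ e < 2, (inn e, 0, [], 0) ∈ G) (hgo : ∀ e < 2, ∃ f, (out e, S, f) ∈ G)
    (hne : inn 0 ≠ inn 1 ∧ out 0 ≠ out 1 ∧ ∀ e e', inn e ≠ out e')
    (hcap : ∀ (v : Name → ℚ) (κ : ℚ), 0 ≤ κ → (∀ g ∈ G, g.1 ≠ inn 0 → g.1 ≠ inn 1 →
      v g.1 = max 0 (ev v g.2.2 - κ)) → ∀ e < 2, v (out e) ≤ 2 ^ m - 2)
    (hm : 1 ≤ m) {r : ℕ} {x : List ℚ}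
    (hx : (SymNE r).IsSol (gameMat (parOf inn out G m S) G) x) :
    (∀ g ∈ G, g.1 ≠ inn 0 → g.1 ≠ inn 1 → gval (parOf inn out G m S) G x g.1 =
      max 0 (ev (gval (parOf inn out G m S) G x) g.2.2)) ∧
    (∀ n, 0 ≤ gval (parOf inn out G m S) G x n) ∧
    ∀ e < 2, |gval (parOf inn out G m S) G x (inn e) -
      gval (parOf inn out G m S) G x (out e)| ≤ 1 / 4 := by
  sorry

end Pool.Agent.H424R2.SG
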