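import Pool.Agent.H424R2.SG.Col
import Pool.Agent.H424R2.SG.Form
import Pool.Agent.NPC.Dec
import Pool.Agent.NPC.CookLevin3

namespace Pool.Agent.H424R2.SG

open Pool.Agent.NPC Pool.Agent.H424R2.PPAD

/-- the prefixes of the inputs -/
def preI (I : Circ × Circ) (c : ℕ) : List Bool := CL.pairPre (bits (I, c))

/-- total length -/
def lenI (I : Circ × Circ) : ℕ :=
  (preI I 0).length + (preI I 1).length + (preI I 2).length + 2 * bitsI I

theorem valB_take {m x : ℕ} (hx : x < 2 ^ m) {w : List Bool} (hw : w.length = 2 * m)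
    (h : ∀ i < m, w.getD i false = x.testBit i) : valB (w.take m) = x := by
  sorry

theorem valB_drop {m y : ℕ} (hy : y < 2 ^ m) {w : List Bool} (hw : w.length = 2 * m)
    (h : ∀ i < m, w.getD (m + i) false = y.testBit i) : valB (w.drop m) = y := by
  sorry

theorem poly_preI : NPC.Poly fun q : (Circ × Circ) × ℕ => preI q.1 q.2 := by
  sorry

theorem upoly_lenI : UPoly lenI := by
  sorry

end Pool.Agent.H424R2.SG
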