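import Pool.Agent.H424R2.SG.Mach

namespace Pool.Agent.H424R2.SG

open Pool.Agent.NPC Pool.Agent.NPC.Cnt

variable {K C A : Type} [DecidableEq K] [DecidableEq C] [DecidableEq A] [Fintype K] [Fintype C]
  [Fintype A] {D : Tab K C A}

/-- the gates only refer to earlier gates of the copy and to the variables of the inputs -/
theorem mach_in (hD : D.Ok) {tg : List ℕ} {b : ℕ} {pre : List Bool} {ws : List Form} {N T : ℕ}
    {g : Gate} (hg : g ∈ mach D tg b pre ws N T) :
    FIn (fun n => (∃ g' ∈ mach D tg b pre ws N T, g'.1 = n ∧ g'.2.1 < g.2.1) ∨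
      ∃ f ∈ ws, ∃ t ∈ f.1, t.2 = n) g.2.2 := by
  sorry

theorem mach_stage {tg : List ℕ} {b : ℕ} {pre : List Bool} {ws : List Form} {N T : ℕ}
    {g : Gate} (hg : g ∈ mach D tg b pre ws N T) : b ≤ g.2.1 ∧ g.2.1 ≤ b + 2 * T + 1 := by
  sorry

/-- all names start with the tag, and they are distinct -/
theorem mach_tag {tg : List ℕ} {b : ℕ} {pre : List Bool} {ws : List Form} {N T : ℕ}
    {g : Gate} (hg : g ∈ mach D tg b pre ws N T) : ∃ l, g.1 = tg ++ l := by
  sorry

theorem mach_nodup (hcs : D.cs.Nodup) (has : D.as.Nodup) (hks : D.ks.Nodup) {tg : List ℕ}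
    {b : ℕ} {pre : List Bool} {ws : List Form} {N T : ℕ} :
    ((mach D tg b pre ws N T).map fun g => g.1).Nodup := by
  sorry

end Pool.Agent.H424R2.SG
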