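import Pool.Agent.H424R2.SG.Net
import Pool.Agent.H424R2.SG.Stub.MachB

namespace Pool.Agent.H424R2.SG

open Pool.Agent.NPC Pool.Agent.NPC.Cnt

variable {K C A : Type} [DecidableEq K] [DecidableEq C] [DecidableEq A] [Fintype K] [Fintype C]
  [Fintype A] {D : Tab K C A}

theorem net_nodup (hcs : D.cs.Nodup) (has : D.as.Nodup) (hks : D.ks.Nodup) {m : ℕ}
    {pre : ℕ → List Bool} {N T : ℕ} : ((net D m pre N T).map fun g => g.1).Nodup := by
  sorry

theorem net_in (hD : D.Ok) {m : ℕ} {pre : ℕ → List Bool} {N T : ℕ}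
    {g : Gate} (hg : g ∈ net D m pre N T) :
    FIn (fun n => ∃ g' ∈ net D m pre N T, g'.1 = n ∧ g'.2.1 < g.2.1) g.2.2 := by
  sorry

theorem net_stage {m : ℕ} {pre : ℕ → List Bool} {N T : ℕ}
    {g : Gate} (hg : g ∈ net D m pre N T) : g.2.1 ≤ netStage m T := by
  sorry

end Pool.Agent.H424R2.SG
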