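import Pool.Agent.H424R2.SG.Net

namespace Pool.Agent.H424R2.SG

open Pool.Agent.NPC Pool.Agent.NPC.Cnt

variable {K C A : Type} [DecidableEq K] [DecidableEq C] [DecidableEq A] [Fintype K] [Fintype C]
  [Fintype A] {D : Tab K C A}

/-- The output gates are bounded. -/
theorem net_cap {m : ℕ} {pre : ℕ → List Bool} {N T : ℕ} (hm : 2 ≤ m) {v : Name → ℚ} {κ : ℚ}
    (hκ : 0 ≤ κ)
    (hv : ∀ g ∈ net D m pre N T, g.1 ≠ nIn 0 → g.1 ≠ nIn 1 → v g.1 = max 0 (ev v g.2.2 - κ)) :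
    ∀ e < 2, v (nOut e) ≤ 2 ^ m - 2 := by
  sorry

end Pool.Agent.H424R2.SG
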