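import Pool.Agent.H424R2.SG.Mach

namespace Pool.Agent.H424R2.SG

open Pool.Agent.NPC Pool.Agent.NPC.Cnt

variable {K C A : Type} [DecidableEq K] [DecidableEq C] [DecidableEq A] [Fintype K] [Fintype C]
  [Fintype A] {D : Tab K C A}

/-- the output is in the unit interval -/
theorem mach_range {tg : List ℕ} {b : ℕ} {pre : List Bool} {ws : List Form} {N T : ℕ}
    {v : Name → ℚ} (hv : ∀ g ∈ mach D tg b pre ws N T, v g.1 = max 0 (ev v g.2.2)) :
    0 ≤ v (nRej tg) ∧ v (nRej tg) ≤ 1 := by
  sorry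

/-- the gates simulate the machine -/
theorem mach_spec (hD : D.Ok) (hcs : D.cs.Nodup) (has : D.as.Nodup) {tg : List ℕ} {b : ℕ}
    {pre : List Bool} {ws : List Form} {N T : ℕ} {v : Name → ℚ}
    (hv : ∀ g ∈ mach D tg b pre ws N T, v g.1 = max 0 (ev v g.2.2))
    (w : List Bool) (hw : ws.length = w.length)
    (hw' : ∀ i < w.length, ev v (ws.getD i (cst 0)) = if w.getD i false then 1 else 0)
    (hN : pre.length + w.length + T < N) :
    v (nRej tg) = if D.good ((D.conf (pre ++ w) T).2 D.k1)[0]? = true ∧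
      ((D.conf (pre ++ w) T).2 D.k1)[1]? = none then 0 else 1 := by
  sorry

end Pool.Agent.H424R2.SG
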