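import Pool.Agent.H424R2.SG.Plane

namespace Pool.Agent.H424R2.SG

open Finset

/-- If `z` is not just above an integer, the extracted bits are exact. -/
theorem IsBits.eq {m : ℕ} {z : ℚ} {b : ℕ → ℚ} (h : IsBits m z b) (h0 : 0 ≤ z)
    (hz : z < 2 ^ m) (hf : 1 / 16 ≤ Int.fract z) (i : ℕ) (hi : i < m) :
    b i = if (⌊z⌋₊).testBit i then 1 else 0 := by
  sorry

end Pool.Agent.H424R2.SG
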