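import Pool.Agent.H424R2.SG.Plane

namespace Pool.Agent.H424R2.SG

open Finset

/-- An approximate fixed point of the averaged displacement lies in a cell with a trichromatic
triple.  Here `r k c` is the value of the test whether sample `k` has colour `c`. -/
theorem plane (col : ℕ → ℕ → ℕ) (M : ℕ) (hM : 4 ≤ M) (a b : ℚ) (ha : 0 ≤ a) (hb : 0 ≤ b)
    (r : ℕ → ℕ → ℚ) (hcol : ∀ x y, col x y < 3)
    (r01 : ∀ k < 16, ∀ c < 3, 0 ≤ r k c ∧ r k c ≤ 1)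
    (hr : ∀ k < 16, Good a k → Good b k → ∀ c < 3,
      r k c = if col ⌊a + k / 16⌋₊ ⌊b + k / 16⌋₊ = c then 1 else 0)
    (hx : |a - (max 0 (a + ∑ k ∈ range 16, (r k 1 - r k 0)) -
      max 0 (a + ∑ k ∈ range 16, (r k 1 - r k 0) - M))| ≤ 1 / 4)
    (hy : |b - (max 0 (b + ∑ k ∈ range 16, (r k 2 - r k 0)) -
      max 0 (b + ∑ k ∈ range 16, (r k 2 - r k 0) - M))| ≤ 1 / 4)
    (B0 : ∀ x y, (x < 2 ∨ y < 2) → col x y ≠ 0)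
    (B1 : ∀ x y, M ≤ x + 1 → col x y ≠ 1)
    (B2 : ∀ x y, M ≤ y + 1 → col x y ≠ 2) :
    ∃ x' y', ((x' = ⌊a⌋₊ + 1 ∧ y' = ⌊b⌋₊) ∨ (x' = ⌊a⌋₊ ∧ y' = ⌊b⌋₊ + 1)) ∧
      ¬ noTri (col ⌊a⌋₊ ⌊b⌋₊) (col x' y') (col (⌊a⌋₊ + 1) (⌊b⌋₊ + 1)) := by
  sorry

end Pool.Agent.H424R2.SG
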