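import Pool.Agent.H424R2.SG.Net
import Pool.Agent.H424R2.SG.Stub.MachA
import Pool.Agent.H424R2.SG.Stub.PlaneA
import Pool.Agent.H424R2.SG.Stub.PlaneB

namespace Pool.Agent.H424R2.SG

open Pool.Agent.NPC Pool.Agent.NPC.Cnt

variable {K C A : Type} [DecidableEq K] [DecidableEq C] [DecidableEq A] [Fintype K] [Fintype C]
  [Fintype A] {D : Tab K C A}

/-- Exact evaluation together with approximately equal inputs and outputs leads to a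
trichromatic triple. -/
theorem net_spec (hD : D.Ok) (hcs : D.cs.Nodup) (has : D.as.Nodup) {m : ℕ} (hm : 4 ≤ m)
    {pre : ℕ → List Bool} {N T : ℕ} {v : Name → ℚ}
    (hv : ∀ g ∈ net D m pre N T, g.1 ≠ nIn 0 → g.1 ≠ nIn 1 → v g.1 = max 0 (ev v g.2.2))
    (h0 : ∀ e < 2, 0 ≤ v (nIn e)) (hfix : ∀ e < 2, |v (nIn e) - v (nOut e)| ≤ 1 / 4)
    (hN : ∀ c < 3, (pre c).length + 2 * m + T < N) (col : ℕ → ℕ → ℕ)
    (hcol : ∀ x y, col x y < 3)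
    (hacc : ∀ c < 3, ∀ x < 2 ^ m, ∀ y < 2 ^ m, ∀ w : List Bool, w.length = 2 * m →
      (∀ i < m, w.getD i false = x.testBit i) → (∀ i < m, w.getD (m + i) false = y.testBit i) →
      ((D.good ((D.conf (pre c ++ w) T).2 D.k1)[0]? = true ∧
        ((D.conf (pre c ++ w) T).2 D.k1)[1]? = none) ↔ col x y = c))
    (B0 : ∀ x y, (x < 2 ∨ y < 2) → col x y ≠ 0)
    (B1 : ∀ x y, 2 ^ m - 2 ≤ x + 1 → col x y ≠ 1)
    (B2 : ∀ x y, 2 ^ m - 2 ≤ y + 1 → col x y ≠ 2) :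
    ∃ x' y', ((x' = ⌊v (nIn 0)⌋₊ + 1 ∧ y' = ⌊v (nIn 1)⌋₊) ∨
        (x' = ⌊v (nIn 0)⌋₊ ∧ y' = ⌊v (nIn 1)⌋₊ + 1)) ∧
      ¬ noTri (col ⌊v (nIn 0)⌋₊ ⌊v (nIn 1)⌋₊) (col x' y')
        (col (⌊v (nIn 0)⌋₊ + 1) (⌊v (nIn 1)⌋₊ + 1)) := by
  sorry

end Pool.Agent.H424R2.SG
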