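import Pool.Agent.H424R2.SG.Col
import Pool.Agent.H671R2.PolyAuto
import Pool.Agent.H532R2.RatPoly

namespace Pool.Agent.H424R2.SG

open Pool.Agent.NPC Pool.Agent.H424R2.PPAD

theorem poly_bitsI : UPoly bitsI := by
  sorry

theorem poly_colTest : NPC.Poly (fun q : ((Circ × Circ) × ℕ) × List Bool =>
    decide (colI q.1.1 (valB (q.2.take (bitsI q.1.1))) (valB (q.2.drop (bitsI q.1.1))) =
      q.1.2)) := by
  sorry

theorem poly_ansI : NPC.Poly (fun q : (Circ × Circ) × ℕ => ansI q.1 q.2) := by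
  sorry

end Pool.Agent.H424R2.SG
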