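import Pool.Agent.H424R2.SG.Net

namespace Pool.Agent.H424R2.SG

open Pool.Agent.NPC Pool.Agent.NPC.Cnt

theorem poly_net {K C A : Type} [DecidableEq K] [DecidableEq C] [DecidableEq A] [Fintype K]
    [Fintype C] [Fintype A] (D : Tab K C A) {α : Type} [TEnc α] {m N T : α → ℕ}
    {pre : α → ℕ → List Bool} (hm : UPoly m) (hN : UPoly N) (hT : UPoly T)
    (hp : NPC.Poly fun q : α × ℕ => pre q.1 q.2) :
    NPC.Poly fun a => net D (m a) (pre a) (N a) (T a) := by
  sorry

end Pool.Agent.H424R2.SG
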