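import Pool.Agent.H424R2.SG.Net
import Pool.Agent.H424R2.SG.Game

namespace Pool.Agent.H424R2.SG

open Pool.Agent.NPC Pool.Agent.H424R2.PPAD

theorem poly_gameMat {α : Type} [TEnc α] {G : α → List Gate} {m S : α → ℕ} (hG : NPC.Poly G)
    (hm : UPoly m) (hS : UPoly S) (hst : ∀ a, ∀ g ∈ G a, g.2.1 ≤ S a) :
    NPC.Poly fun a => gameMat (parOf nIn nOut (G a) (m a) (S a)) (G a) := by
  sorry

end Pool.Agent.H424R2.SG
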