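import Pool.Agent.H424R2.SG.Col

namespace Pool.Agent.H424R2.SG

variable {N : ℕ} {s p : ℕ → ℕ}

theorem colN_B1 (h : GraphOK N s p) (x y : ℕ) (hx : 14 * N + 16 ≤ x) : colN N s p x y ≠ 1 := by
  sorry

theorem colN_B2 (h : GraphOK N s p) (x y : ℕ) (hy : 14 * N + 16 ≤ y) : colN N s p x y ≠ 2 := by
  sorry

/-- A trichromatic triple gives a solution of End-of-Line. -/
theorem colN_tri (h : GraphOK N s p) (x y x' y' : ℕ)
    (h' : (x' = x + 1 ∧ y' = y) ∨ (x' = x ∧ y' = y + 1))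
    (ht : ¬ noTri (colN N s p x y) (colN N s p x' y') (colN N s p (x + 1) (y + 1))) :
    (x / 7 - 1) / 2 < N ∧ (p (s ((x / 7 - 1) / 2)) ≠ (x / 7 - 1) / 2 ∨
      ((x / 7 - 1) / 2 ≠ 0 ∧ s (p ((x / 7 - 1) / 2)) ≠ (x / 7 - 1) / 2)) := by
  sorry

end Pool.Agent.H424R2.SG
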