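import Pool.Agent.H424R2.SG.Gadget

namespace Pool.Agent.H424R2.SG

open Finset

variable {Nb : ℕ} {u th D κ γ : ℚ} {bm tm : ℕ → ℚ}

/-- The output is close to the input. -/
theorem Gad.err (h : Gad Nb u th D κ γ bm tm) (hD : 0 < D) (hth : 0 < th) (hu : 0 < u)
    (hκ : 0 ≤ κ) (hN : 2 ≤ Nb) (hγ : |γ| ≤ u) :
    |gout Nb u th bm - (γ + 4 * u)| ≤
      4 * u * κ / D + rho u (Nb - 1) + κ * th / rho u (Nb - 1) := by
  sorry

/-- Balance of the gadget. -/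
theorem Gad.balance (h : Gad Nb u th D κ γ bm tm) (hD : 0 < D) (hth : 0 < th) (hu : 0 < u)
    (hκ : 0 ≤ κ) :
    κ * (∑ j ∈ range Nb, bm j + ∑ j ∈ range Nb, tm j) + D * ∑ j ∈ range Nb, tm j ≤
      gout Nb u th bm * (γ + 4 * u) := by
  sorry

theorem Gad.gout_le (h : Gad Nb u th D κ γ bm tm) (hD : 0 < D) (hu : 0 < u) (hκ : 0 ≤ κ) :
    gout Nb u th bm ≤ 8 * u * (1 + κ / D) := by
  sorry

end Pool.Agent.H424R2.SG
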